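import Pool.Agent.W290.LG.Fin
import Pool.Agent.W364.LG.B
import Pool.Agent.W532.LG.C
import Pool.Agent.W125.LG.D
import Pool.Agent.W976.LG.E
import Pool.Agent.W382.LG.F

/-!
# Project LG: assembly of the first part
-/

set_option autoImplicit false

namespace Pool.Agent.W290.LG

open Pool.Agent Pool.Agent.NPC Pool.Agent.H528R2 Pool.Agent.H881R2.Mat

theorem hB : S_B := Pool.Agent.W364.LG.t_B
theorem hC : S_C := Pool.Agent.W532.LG.t_C
theorem hD : S_D := Pool.Agent.W125.LG.t_D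
theorem hE : S_E := Pool.Agent.W976.LG.t_E
theorem hF : S_F := Pool.Agent.W382.LG.t_F

theorem first_part :
    (∀ L : Set (List Bool), InNEXP L →
      ∃ f : List Bool → ℕ × List (List ℕ), PolyTime (fun w => bits (f w)) ∧
        ∀ w, Loc (f w) ∧
          (∀ (K : Type) [Field K] [CharZero K], (∃ x : K, x ^ 2 = 2 ∨ x ^ 2 = 17 ∨ x ^ 2 = 34) →
            RepK K (f w)) ∧
          (w ∈ L ↔ RepQ (f w))) ∧
    ¬ InNP (lang Fail) ∧ ¬ InCoNP (lang Fail) := by
  refine ⟨fun L hL => ?_, ?_, ?_⟩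
  · obtain ⟨f, hf, hw⟩ := fin_L hB hC hD hE hF L hL
    exact ⟨f, PC.toPolyTime hf, hw⟩
  · intro h
    have h1 := (hard_fail hB hC hD hE hF).not_inCoNP
    exact h1 (by unfold InCoNP; rwa [compl_compl])
  · intro h
    exact (hard_fail hB hC hD hE hF).not_inNP h

end Pool.Agent.W290.LG
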