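import Pool.Agent.W290.LG.Stm

/-!
# Project LG, part 2: from matroids of any rank to systems of constraints
-/

set_option autoImplicit false

namespace Pool.Agent.W290.LG

open Pool.Agent Pool.Agent.NPC Pool.Agent.H881R2.Mat

/-- Every listed set is written as a strictly increasing list of elements smaller than `n`. -/
def Valid (I : ℕ × List (List ℕ)) : Prop := ∀ l ∈ I.2, l.Pairwise (· < ·) ∧ ∀ i ∈ l, i < I.1

/-- `l` without `k` and with `j` is listed in `L` -/
def exch (L : List (List ℕ)) (l : List ℕ) (j k : ℕ) : Bool :=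
  L.any (fun l' => decide (j ∈ l') && (l'.all (fun x => decide (x = j) ||
    (decide (x ∈ l) && !decide (x = k))) && l.all (fun x => decide (x = k) || decide (x ∈ l'))))

/-- `c b j k` is the coefficient of the vector `k` in the expansion of the vector `j` in the basis
number `b` -/
structure Coef {K : Type} [Field K] (L : List (List ℕ)) (c : ℕ → ℕ → ℕ → K) : Prop where
  zero : ∀ (b : ℕ) (l : List ℕ), L[b]? = some l → ∀ j ∈ L.flatten, ∀ k ∈ L.flatten, k ∉ l →
    c b j k = 0
  one : ∀ (b : ℕ) (l : List ℕ), L[b]? = some l → ∀ j ∈ l, ∀ k ∈ l,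
    c b j k = if j = k then 1 else 0
  tr : ∀ (b : ℕ) (l : List ℕ), L[b]? = some l → ∀ (b' : ℕ) (l' : List ℕ), L[b']? = some l' →
    ∀ j ∈ L.flatten, ∀ m ∈ L.flatten, (l.map (fun k => c b j k * c b' k m)).sum = c b' j m
  ex : ∀ (b : ℕ) (l : List ℕ), L[b]? = some l → ∀ j ∈ L.flatten, j ∉ l → ∀ k ∈ l,
    (c b j k ≠ 0 ↔ exch L l j k = true)

/-- H: from coefficients to a representation -/
def S_H : Prop := ∀ I : ℕ × List (List ℕ), Valid I → I.2 ≠ [] →
  (∃ c : ℕ → ℕ → ℕ → ℚ, Coef I.2 c) → RepQ I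

/-- J: from a representation to coefficients -/
def S_J : Prop := ∀ I : ℕ × List (List ℕ), Valid I → RepQ I →
  I.2 ≠ [] ∧ ∃ c : ℕ → ℕ → ℕ → ℚ, Coef I.2 c

/-! ### the system of constraints -/

/-- larger than all numbers which occur -/
def rad (L : List (List ℕ)) : ℕ := L.flatten.sum + L.length + L.flatten.length + 7

/-- the number of a variable with the name `(a₀, …, a₅)` -/
def ix (N a₀ a₁ a₂ a₃ a₄ a₅ : ℕ) : ℕ := ((((a₀ * N + a₁) * N + a₂) * N + a₃) * N + a₄) * N + a₅

/-- the coefficient `c b j k` -/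
def vC (N b j k : ℕ) : ℕ := ix N 0 b j k 0 0
/-- the product `c b j k * c b' k m`, for the entry `k` number `t` of the basis number `b` -/
def vP (N b b' j m t : ℕ) : ℕ := ix N 1 b b' j m t
/-- the partial sum -/
def vS (N b b' j m t : ℕ) : ℕ := ix N 2 b b' j m t
/-- the inverse of `c b j k` -/
def vY (N b j k : ℕ) : ℕ := ix N 3 b j k 0 0
/-- the number `0` -/
def vZ (N : ℕ) : ℕ := ix N 4 0 0 0 0 0
/-- the number `1` -/
def vO (N : ℕ) : ℕ := ix N 5 0 0 0 0 0

/-- the constraints for `zero`, `one`, `ex`: basis `l` number `b`, elements `j`, `k` -/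
def cEl (L : List (List ℕ)) (l : List ℕ) (b j k : ℕ) : List ER.Con :=
  if k ∈ l then
    (if j ∈ l then
      (if j = k then [ER.Con.one (vC (rad L) b j k)]
        else [ER.Con.add (vC (rad L) b j k) (vC (rad L) b j k) (vC (rad L) b j k)])
    else
      (if exch L l j k = true then
        [ER.Con.mul (vC (rad L) b j k) (vY (rad L) b j k) (vO (rad L))]
        else [ER.Con.add (vC (rad L) b j k) (vC (rad L) b j k) (vC (rad L) b j k)]))
  else [ER.Con.add (vC (rad L) b j k) (vC (rad L) b j k) (vC (rad L) b j k)]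

/-- the constraints for `tr`: basis `l` number `b`, basis number `b'`, elements `j`, `m` -/
def cTr (L : List (List ℕ)) (l : List ℕ) (b b' j m : ℕ) : List ER.Con :=
  [ER.Con.add (vS (rad L) b b' j m 0) (vS (rad L) b b' j m 0) (vS (rad L) b b' j m 0),
    ER.Con.add (vS (rad L) b b' j m l.length) (vZ (rad L)) (vC (rad L) b' j m)] ++
  l.zipIdx.flatMap (fun q =>
    [ER.Con.mul (vC (rad L) b j q.1) (vC (rad L) b' q.1 m) (vP (rad L) b b' j m q.2),
      ER.Con.add (vS (rad L) b b' j m q.2) (vP (rad L) b b' j m q.2)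
        (vS (rad L) b b' j m (q.2 + 1))])

/-- the system of constraints of a list of bases -/
def sysL (L : List (List ℕ)) : List ER.Con :=
  [ER.Con.add (vZ (rad L)) (vZ (rad L)) (vZ (rad L)), ER.Con.one (vO (rad L))] ++
  (L.zipIdx.flatMap (fun p => L.flatten.flatMap (fun j => L.flatten.flatMap (fun k =>
    cEl L p.1 p.2 j k))) ++
  L.zipIdx.flatMap (fun p => L.zipIdx.flatMap (fun p' => L.flatten.flatMap (fun j =>
    L.flatten.flatMap (fun m => cTr L p.1 p.2 p'.2 j m)))))

/-- M: meaning of the system -/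
def S_M : Prop := ∀ L : List (List ℕ), KSat ℚ (sysL L) ↔ ∃ c : ℕ → ℕ → ℕ → ℚ, Coef L c

/-- P: the system is computed in polynomial time -/
def S_P : Prop := Poly sysL

/-- G: systems of constraints for the zeros of a polynomial -/
def S_G : Prop := ∀ (n : ℕ) (P : MvPolynomial (Fin n) ℤ), ∃ T : List ER.Con,
  ∀ (K : Type) [Field K], KSat K T ↔ ∃ x : Fin n → K, MvPolynomial.aeval x P = 0

end Pool.Agent.W290.LG
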