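import Pool.Agent.W290.LG.All
import Pool.Agent.W290.LG.Stm2

/-!
# Project LG: assembly of the second part
-/

set_option autoImplicit false

namespace Pool.Agent.W290.LG

open Pool.Agent Pool.Agent.NPC Pool.Agent.H528R2 Pool.Agent.H881R2.Mat

/-- `J` lists the bases of a matroid of rank `3` without loops which is representable over `ℝ`, over
the field `ℚ_p` for every prime number `p`, over every field of characteristic `0` which contains a
square root of `2`, `17` or `34`, and over every field of characteristic `0` in which the polynomial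
`P` has a zero. -/
def Prom {n : ℕ} (P : MvPolynomial (Fin n) ℤ) (J : ℕ × List (List ℕ)) : Prop :=
  IsMat3 J ∧ NoLoops J ∧ RepK ℝ J ∧ (∀ (p : ℕ) [Fact p.Prime], RepK ℚ_[p] J) ∧
  (∀ (K : Type) [Field K] [CharZero K], (∃ x : K, x ^ 2 = 2 ∨ x ^ 2 = 17 ∨ x ^ 2 = 34) →
    RepK K J) ∧
  ∀ (K : Type) [Field K] [CharZero K], (∃ x : Fin n → K, MvPolynomial.aeval x P = 0) → RepK K J

/-- the general reduction -/
theorem red (hG : S_G) {n : ℕ} (P : MvPolynomial (Fin n) ℤ)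
    (hP : ∀ x : Fin n → ℚ, MvPolynomial.aeval x P ≠ 0) :
    ∃ g : List ER.Con → ℕ × List (List ℕ), Poly g ∧ ∀ S : List ER.Con, Prom P (g S) ∧
      (QSat S ↔ RepQ (g S)) := by
  obtain ⟨T₁, hT₁⟩ := hG n P
  obtain ⟨T₂, hT₂, hT₂'⟩ := hE
  obtain ⟨d, -, hd⟩ := hD T₂
  obtain ⟨g, hg, hgS⟩ := hD (d T₁)
  refine ⟨fun S => inst (toW (g S)), poly_inst.comp (poly_toW.comp hg), fun S => ?_⟩
  have hrep : ∀ (K : Type) [Field K] [CharZero K], KSat K T₁ ∨ KSat K T₂ →
      RepK K (inst (toW (g S))) := by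
    intro K _ _ hK
    exact hC K _ (hB K _ (distinct_toW _) (PA.t_A K _ ((hgS K S).2 (Or.inr ((hd K T₁).2 hK)))))
  refine ⟨⟨isMat3_inst _ (distinct_toW _), noLoops_inst _, ?_, ?_, ?_, ?_⟩, ?_⟩
  · exact hrep ℝ (Or.inr (hT₂' ℝ ⟨Real.sqrt 2, Or.inl (Real.sq_sqrt (by norm_num))⟩))
  · intro p _
    exact hrep ℚ_[p] (Or.inr (hT₂' ℚ_[p] (hF p)))
  · intro K _ _ hx
    exact hrep K (Or.inr (hT₂' K hx))
  · intro K _ _ hx
    exact hrep K (Or.inl ((hT₁ K).2 hx))
  · have hno : ¬ KSat ℚ (d T₁) := by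
      rw [hd ℚ]
      rintro (h | h)
      · obtain ⟨x, hx⟩ := (hT₁ ℚ).1 h
        exact hP x hx
      · exact hT₂ h
    rw [repQ_toW, ← ksat_rat (g S), hgS ℚ, or_iff_left hno, ksat_rat]

theorem part_nexp (hG : S_G) {n : ℕ} (P : MvPolynomial (Fin n) ℤ)
    (hP : ∀ x : Fin n → ℚ, MvPolynomial.aeval x P ≠ 0) (L : Set (List Bool)) (hL : InNEXP L) :
    ∃ f : List Bool → ℕ × List (List ℕ), PolyTime (fun w => bits (f w)) ∧
      ∀ w, Prom P (f w) ∧ (w ∈ L ↔ RepQ (f w)) := by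
  obtain ⟨g, hg, hg'⟩ := red hG P hP
  obtain ⟨f, hf, hfL⟩ := hardX_QSat L hL
  refine ⟨fun w => g (f w), PC.toPolyTime (PC.comp (eb := (bits : List ER.Con → List Bool))
    (g := g) (f := f) hg hf), fun w => ⟨(hg' (f w)).1, (hfL w).trans (hg' (f w)).2⟩⟩

/-- from lists of bases to systems of constraints -/
theorem exists_sys (hH : S_H) (hJ : S_J) (hM : S_M) (hPo : S_P) :
    ∃ h : ℕ × List (List ℕ) → List ER.Con, Poly h ∧ ∀ I, Valid I → (RepQ I ↔ QSat (h I)) := by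
  refine ⟨fun I => if I.2 = [] then [ER.Con.one 0, ER.Con.add 0 0 0] else sysL I.2, ?_, ?_⟩
  · exact Poly.ite (Poly.decide_eq (Poly.snd Poly.id) (NPC.Poly.const _)) (NPC.Poly.const _)
      (hPo.comp (Poly.snd Poly.id))
  · intro I hI
    by_cases h0 : I.2 = []
    · simp only [h0, if_true]
      constructor
      · intro h
        exact absurd h0 (hJ I hI h).1
      · rintro ⟨v, hv⟩
        exfalso
        have h1 : v 0 = 1 := hv (ER.Con.one 0) (by simp)
        have h2 : v 0 + v 0 = v 0 := hv (ER.Con.add 0 0 0) (by simp)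
        rw [h1] at h2
        norm_num at h2
    · simp only [h0, if_false]
      rw [← ksat_rat, hM I.2]
      exact ⟨fun h => (hJ I hI h).2, fun h => hH I hI h0 h⟩

theorem part_red (hG : S_G) (hH : S_H) (hJ : S_J) (hM : S_M) (hPo : S_P) {n : ℕ}
    (P : MvPolynomial (Fin n) ℤ) (hP : ∀ x : Fin n → ℚ, MvPolynomial.aeval x P ≠ 0) :
    ∃ f : ℕ × List (List ℕ) → ℕ × List (List ℕ),
      (∃ F : List Bool → List Bool, PolyTime F ∧ ∀ I, F (bits I) = bits (f I)) ∧
      ∀ I, Prom P (f I) ∧ (Valid I → (RepQ I ↔ RepQ (f I))) := by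
  obtain ⟨g, hg, hg'⟩ := red hG P hP
  obtain ⟨h, hh, hh'⟩ := exists_sys hH hJ hM hPo
  have hgh : Poly (fun I => g (h I)) := hg.comp hh
  refine ⟨fun I => g (h I), ⟨_, polyTime_opt (Poly.optMap (o := unbits (ℕ × List (List ℕ)))
    (f := fun _ a => g (h a)) poly_unbits (hgh.comp (Poly.snd Poly.id))), fun I => ?_⟩,
    fun I => ⟨(hg' (h I)).1, fun hI => (hh' I hI).trans (hg' (h I)).2⟩⟩
  simp [unbits_bits]

/-- the matroids with the promise which are not representable over `ℚ` -/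
theorem part_fail (hG : S_G) {n : ℕ} (P : MvPolynomial (Fin n) ℤ)
    (hP : ∀ x : Fin n → ℚ, MvPolynomial.aeval x P ≠ 0) :
    ¬ InNP (lang (fun J => Prom P J ∧ ¬ RepQ J)) ∧
      ¬ InCoNP (lang (fun J => Prom P J ∧ ¬ RepQ J)) := by
  have key : NEXPHard (lang (fun J => Prom P J ∧ ¬ RepQ J))ᶜ := by
    intro L hL
    obtain ⟨f, hf, hfw⟩ := part_nexp hG P hP L hL
    refine ⟨fun w => bits (f w), hf, fun w => ?_⟩
    obtain ⟨h1, h3⟩ := hfw w
    rw [h3, Set.mem_compl_iff, bits_mem_lang]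
    exact ⟨fun h h' => h'.2 h, fun h => by
      by_contra h'
      exact h ⟨h1, h'⟩⟩
  constructor
  · intro h
    exact key.not_inCoNP (by unfold InCoNP; rwa [compl_compl])
  · intro h
    exact key.not_inNP h

end Pool.Agent.W290.LG
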