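import Pool.Agent.H881R2.Mat.Main
import Pool.Agent.W290.LG.A

/-!
# Project LG: assembly
-/

set_option autoImplicit false

namespace Pool.Agent.W290.LG

open Pool.Agent Pool.Agent.NPC Pool.Agent.H528R2 Pool.Agent.H881R2.Mat

theorem ksat_rat (S : List ER.Con) : KSat ℚ S ↔ QSat S := by
  have h : ∀ (v : ℕ → ℚ) (c : ER.Con), HoldsK v c ↔ HoldsQ v c := by
    intro v c
    cases c <;> exact Iff.rfl
  constructor
  · rintro ⟨v, hv⟩
    exact ⟨v, fun c hc => (h v c).1 (hv c hc)⟩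
  · rintro ⟨v, hv⟩
    exact ⟨v, fun c hc => (h v c).2 (hv c hc)⟩

/-- the reduction -/
theorem fin_T (hB : S_B) (hC : S_C) (hD : S_D) (T : List ER.Con) (hT : ¬ KSat ℚ T)
    (L : Set (List Bool)) (hL : InNEXP L) :
    ∃ f : List Bool → ℕ × List (List ℕ), PC (fun x : List Bool => x)
      (bits : ℕ × List (List ℕ) → List Bool) f ∧
      ∀ w, (IsMat3 (f w) ∧ NoLoops (f w)) ∧
        (∀ (K : Type) [Field K] [CharZero K], KSat K T → RepK K (f w)) ∧
        (w ∈ L ↔ RepQ (f w)) := by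
  obtain ⟨g, hg, hgS⟩ := hD T
  obtain ⟨f, hf, hfL⟩ := hardX_QSat L hL
  refine ⟨fun w => inst (toW (g (f w))), ?_, fun w => ⟨⟨isMat3_inst _ (distinct_toW _),
    noLoops_inst _⟩, ?_, ?_⟩⟩
  · exact PC.comp (eb := (bits : List Gad → List Bool)) (g := inst) (f := fun w => toW (g (f w)))
      poly_inst
      (PC.comp (eb := (bits : List ER.Con → List Bool)) (g := toW) (f := fun w => g (f w)) poly_toW
        (PC.comp (eb := (bits : List ER.Con → List Bool)) (g := g) (f := f) hg hf))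
  · intro K _ _ hK
    exact hC K _ (hB K _ (distinct_toW _) (PA.t_A K _ ((hgS K (f w)).2 (Or.inr hK))))
  · rw [repQ_toW, ← ksat_rat, hgS ℚ, or_iff_left hT, ksat_rat]
    exact hfL w

/-- The matroids of rank `3` without loops which are representable over all completions of `ℚ`. -/
def Loc (I : ℕ × List (List ℕ)) : Prop :=
  (IsMat3 I ∧ NoLoops I) ∧ RepK ℝ I ∧ ∀ (p : ℕ) [Fact p.Prime], RepK ℚ_[p] I

theorem fin_L (hB : S_B) (hC : S_C) (hD : S_D) (hE : S_E) (hF : S_F)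
    (L : Set (List Bool)) (hL : InNEXP L) :
    ∃ f : List Bool → ℕ × List (List ℕ), PC (fun x : List Bool => x)
      (bits : ℕ × List (List ℕ) → List Bool) f ∧
      ∀ w, Loc (f w) ∧
        (∀ (K : Type) [Field K] [CharZero K], (∃ x : K, x ^ 2 = 2 ∨ x ^ 2 = 17 ∨ x ^ 2 = 34) →
          RepK K (f w)) ∧
        (w ∈ L ↔ RepQ (f w)) := by
  obtain ⟨T, hT, hT'⟩ := hE
  obtain ⟨f, hf, hfw⟩ := fin_T hB hC hD T hT L hL
  refine ⟨f, hf, fun w => ?_⟩
  obtain ⟨h1, h2, h3⟩ := hfw w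
  refine ⟨⟨h1, ?_, ?_⟩, fun K _ _ hx => h2 K (hT' K hx), h3⟩
  · exact h2 ℝ (hT' ℝ ⟨Real.sqrt 2, Or.inl (Real.sq_sqrt (by norm_num))⟩)
  · intro p _
    exact h2 ℚ_[p] (hT' ℚ_[p] (hF p))

/-- the matroids in `Loc` which are not representable over `ℚ` -/
def Fail (I : ℕ × List (List ℕ)) : Prop := Loc I ∧ ¬ RepQ I

theorem hard_fail (hB : S_B) (hC : S_C) (hD : S_D) (hE : S_E) (hF : S_F) :
    NEXPHard (lang Fail)ᶜ := by
  intro L hL
  obtain ⟨f, hf, hfw⟩ := fin_L hB hC hD hE hF L hL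
  refine ⟨fun w => bits (f w), PC.toPolyTime hf, fun w => ?_⟩
  obtain ⟨h1, -, h3⟩ := hfw w
  rw [h3, Set.mem_compl_iff, bits_mem_lang]
  exact ⟨fun h h' => h'.2 h, fun h => by
    by_contra h'
    exact h ⟨h1, h'⟩⟩

end Pool.Agent.W290.LG
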