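import Pool.Agent.H881R2.Mat.Defs

/-!
# Representability of rank-3 matroids over `ℚ` under a local promise: definitions and statements

The definitions of `Pool.Agent.H881R2.Mat.Defs` for arbitrary fields of characteristic `0`.
-/

set_option autoImplicit false

namespace Pool.Agent.W290.LG

open Pool.Agent Pool.Agent.NPC Pool.Agent.H881R2.Mat

/-- Validity over `K` of the constraints `x i = 1`, `x i + x j = x k`, `x i * x j = x k`. -/
def HoldsK {K : Type} [Field K] (v : ℕ → K) : ER.Con → Prop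
  | .one i => v i = 1
  | .add i j k => v i + v j = v k
  | .mul i j k => v i * v j = v k

/-- Solvability over `K`. -/
def KSat (K : Type) [Field K] (S : List ER.Con) : Prop := ∃ v : ℕ → K, ∀ c ∈ S, HoldsK v c

/-- The gadget is satisfied, in general position, by the values `w` of the wires. -/
def GOkK {K : Type} [Field K] (w : ℕ → K) (g : Gad) : Prop :=
  (w g.2.1 ≠ 0 ∧ w g.2.1 ≠ 1) ∧ (w g.2.2.1 ≠ 0 ∧ w g.2.2.1 ≠ 1) ∧
    (w g.2.2.2 ≠ 0 ∧ w g.2.2.2 ≠ 1) ∧ w g.2.1 ≠ w g.2.2.1 ∧
    (if g.1 = true then w g.2.1 * w g.2.2.1 = w g.2.2.2 else w g.2.1 + w g.2.2.1 = w g.2.2.2)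

/-- Solvability of a system of gadgets. -/
def WSatK (K : Type) [Field K] (G : List Gad) : Prop := ∃ w : ℕ → K, ∀ g ∈ G, GOkK w g

/-- `I = (n, L)`: the sets in `L` are exactly the bases of a configuration of `n` vectors with
coordinates in `K`, i.e. `L` is the list of the bases of a matroid on `n` elements which is
representable over `K`. -/
def RepK (K : Type) [Field K] (I : ℕ × List (List ℕ)) : Prop :=
  ∃ m : ℕ, ∃ v : Fin I.1 → (Fin m → K), ∀ B : Finset (Fin I.1),
    (Listed I.2 B ↔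
      (LinearIndependent K (fun i : B => v i) ∧
        Submodule.span K (v '' (B : Set (Fin I.1))) = Submodule.span K (Set.range v)))

/-- determinant of three vectors -/
def det3K {K : Type} [Field K] (a b c : Fin 3 → K) : K :=
  a 0 * (b 1 * c 2 - b 2 * c 1) - a 1 * (b 0 * c 2 - b 2 * c 0) + a 2 * (b 0 * c 1 - b 1 * c 0)

/-- a plane configuration with the prescribed collinearities -/
def PlaneRepK (K : Type) [Field K] (G : List Gad) : Prop :=
  ∃ p : Lab → Fin 3 → K, ∀ l₁ ∈ labs G, ∀ l₂ ∈ labs G, ∀ l₃ ∈ labs G,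
    (det3K (p l₁) (p l₂) (p l₃) = 0 ↔ dep G l₁ l₂ l₃ = true)

/-! ## Statements -/

/-- A: port of `Pool.Agent.H881R2.Mat.TaskA.wsat_of_qsat` (second half of `H881R2/Mat/ToW.lean`) -/
def S_A : Prop := ∀ (K : Type) [Field K] [CharZero K] (S : List ER.Con), KSat K S →
  WSatK K (toW S)

/-- B: port of `Pool.Agent.H881R2.Mat.planeRep_of_wsat` (`GenBase`, `Generic`, `Generic2`,
`Generic3`, `Generic4` in `H881R2/Mat`) -/
def S_B : Prop := ∀ (K : Type) [Field K] [CharZero K] (G : List Gad), Distinct G → WSatK K G →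
  PlaneRepK K G

/-- C: port of one direction of `Pool.Agent.H881R2.Mat.repQ_iff` (`H881R2/Mat/RepIff.lean`) -/
def S_C : Prop := ∀ (K : Type) [Field K] [CharZero K] (G : List Gad), PlaneRepK K G →
  RepK K (inst G)

/-- D: the disjunction of a variable system and a fixed system -/
def S_D : Prop := ∀ T : List ER.Con, ∃ f : List ER.Con → List ER.Con, Poly f ∧
  ∀ (K : Type) [Field K] (S : List ER.Con), KSat K (f S) ↔ KSat K S ∨ KSat K T

/-- E: a system which is solvable over all completions of `ℚ` and over some quadratic fields, but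
not over `ℚ` (for instance `(x ^ 2 - 2) * (x ^ 2 - 17) * (x ^ 2 - 34) = 0`) -/
def S_E : Prop := ∃ T : List ER.Con, ¬ KSat ℚ T ∧
  (∀ (K : Type) [Field K] [CharZero K], (∃ x : K, x ^ 2 = 2 ∨ x ^ 2 = 17 ∨ x ^ 2 = 34) →
    KSat K T)

/-- F: the local fields -/
def S_F : Prop := ∀ (p : ℕ) [Fact p.Prime], ∃ x : ℚ_[p], x ^ 2 = 2 ∨ x ^ 2 = 17 ∨ x ^ 2 = 34

end Pool.Agent.W290.LG
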